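import Mathlib

open Set Filter Topology

namespace Pool.Agent.Results.MP_e20a4f_an.Wor

/-- each positive element is a left or right zero divisor -/
def ZStar (A : Type*) [NonUnitalCStarAlgebra A] : Prop :=
  ∀ a : A, (∃ y : A, a = star y * y) → ∃ b : A, b ≠ 0 ∧ (a * b = 0 ∨ b * a = 0)

lemma ZStar.right {A : Type*} [NonUnitalCStarAlgebra A] (h : ZStar A) (y : A) :
    ∃ b : A, b ≠ 0 ∧ star y * y * b = 0 := by
  obtain ⟨b, hb, h1 | h1⟩ := h _ ⟨y, rfl⟩
  · exact ⟨b, hb, h1⟩
  · refine ⟨star b, by simpa using hb, ?_⟩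
    have := congrArg star h1
    simpa [star_mul] using this

lemma ann_seq {B : Type*} [NonUnitalCStarAlgebra B] (h : ZStar B) (j : ℕ → B) :
    ∃ x : B, x ≠ 0 ∧ ∀ n, j n * x = 0 := by
  letI := CStarAlgebra.spectralOrder B
  haveI := CStarAlgebra.spectralOrderedRing B
  let c : ℕ → ℝ := fun n => (1 / 2) ^ n / (1 + ‖star (j n) * j n‖)
  have hc : ∀ n, 0 < c n := fun n => by positivity
  let t : ℕ → B := fun n => c n • (star (j n) * j n)
  have ht : ∀ n, 0 ≤ t n := fun n => smul_nonneg (hc n).le (star_mul_self_nonneg _)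
  have hs : Summable t := by
    refine Summable.of_norm_bounded summable_geometric_two fun n => ?_
    simp only [t, c, norm_smul, Real.norm_eq_abs]
    rw [abs_of_pos (hc n), div_mul_eq_mul_div, div_le_iff₀ (by positivity)]
    have : (0 : ℝ) < (1 / 2) ^ n := by positivity
    nlinarith
  have h0 : 0 ≤ ∑' n, t n := tsum_nonneg ht
  have hsq : star (CFC.sqrt (∑' n, t n)) * CFC.sqrt (∑' n, t n) = ∑' n, t n := by
    rw [(CFC.sqrt_nonneg _).isSelfAdjoint.star_eq, CFC.sqrt_mul_sqrt_self _ h0]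
  obtain ⟨x, hx, hx0⟩ := h.right (CFC.sqrt (∑' n, t n))
  rw [hsq] at hx0
  refine ⟨x, hx, fun n => ?_⟩
  have h1 : t n ≤ ∑' n, t n := hs.le_tsum n fun m _ => ht m
  have h2 := star_left_conjugate_le_conjugate h1 x
  rw [mul_assoc (star x) (∑' n, t n), hx0, mul_zero] at h2
  have h3 := le_antisymm h2 (star_left_conjugate_nonneg (ht n) x)
  have h4 : c n • (star (j n * x) * (j n * x)) = 0 := by
    rw [← h3]
    simp only [t, star_mul, mul_smul_comm, smul_mul_assoc, mul_assoc]
  rcases smul_eq_zero.1 h4 with h5 | h5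
  · exact absurd h5 (hc n).ne'
  · exact (CStarRing.star_mul_self_eq_zero_iff _).1 h5

lemma ann_set {B : Type*} [NonUnitalCStarAlgebra B] (h : ZStar B) {S : Set B} (hS : S.Countable) :
    ∃ x : B, x ≠ 0 ∧ ∀ s ∈ S, s * x = 0 := by
  obtain ⟨j, hj⟩ := (hS.insert 0).exists_eq_range (insert_nonempty _ _)
  obtain ⟨x, hx, h1⟩ := ann_seq h j
  refine ⟨x, hx, fun s hs => ?_⟩
  obtain ⟨n, rfl⟩ : s ∈ range j := hj ▸ mem_insert_of_mem _ hs
  exact h1 n

theorem result (A B : Type*) [NonUnitalCStarAlgebra A] [NonUnitalCStarAlgebra B]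
    (f : A →⋆ₙₐ[ℂ] DoubleCentralizer ℂ B) (hf : Function.Injective f)
    (hd : Dense (Submodule.span ℂ {y : B | ∃ (a : A) (b : B), y = (f a).fst b} : Set B))
    (hA : ZStar A) : ZStar B := by
  rintro b -
  let I : Submodule ℂ B :=
    { carrier := {c | ∃ S : Set A, S.Countable ∧ ∀ x : A, (∀ s ∈ S, x * s = 0) → (f x).fst c = 0}
      add_mem' := by
        rintro c d ⟨S, hS, h1⟩ ⟨T, hT, h2⟩
        refine ⟨S ∪ T, hS.union hT, fun x hx => ?_⟩
        rw [map_add, h1 x fun s hs => hx s (Or.inl hs), h2 x fun s hs => hx s (Or.inr hs), add_zero]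
      zero_mem' := ⟨∅, countable_empty, fun x _ => map_zero _⟩
      smul_mem' := by
        rintro r c ⟨S, hS, h1⟩
        refine ⟨S, hS, fun x hx => ?_⟩
        rw [map_smul, h1 x hx, smul_zero] }
  have hIc : IsClosed (I : Set B) := by
    refine IsSeqClosed.isClosed fun u c hu hc => ?_
    choose S hS h1 using hu
    refine ⟨⋃ n, S n, countable_iUnion hS, fun x hx => ?_⟩
    have h2 : Tendsto (fun n => (f x).fst (u n)) atTop (𝓝 ((f x).fst c)) :=
      ((f x).fst.continuous.tendsto c).comp hc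
    have h3 : (fun n => (f x).fst (u n)) = fun _ => 0 :=
      funext fun n => h1 n x fun s hs => hx s (mem_iUnion.2 ⟨n, hs⟩)
    rw [h3] at h2
    exact tendsto_nhds_unique h2 tendsto_const_nhds
  have hle : Submodule.span ℂ {y : B | ∃ (a : A) (b : B), y = (f a).fst b} ≤ I := by
    rw [Submodule.span_le]
    rintro _ ⟨a, c, rfl⟩
    refine ⟨{a}, countable_singleton _, fun x hx => ?_⟩
    have h1 : (f (x * a)).fst c = (f x).fst ((f a).fst c) := by
      rw [map_mul, DoubleCentralizer.mul_fst]; rfl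
    rw [← h1, hx a rfl, map_zero]; rfl
  have hb : b ∈ (I : Set B) := by
    have := closure_minimal (show _ ⊆ (I : Set B) from hle) hIc
    exact this (hd b)
  obtain ⟨S, hS, h1⟩ := hb
  obtain ⟨x, hx, h2⟩ := ann_set hA (hS.image star)
  have h3 : (f (star x)).fst b = 0 := h1 _ fun s hs => by
    have := congrArg star (h2 _ ⟨s, hs, rfl⟩)
    simpa [star_mul] using this
  by_cases h4 : ∃ c, (f (star x)).snd c ≠ 0
  · obtain ⟨c, hc⟩ := h4
    exact ⟨_, hc, Or.inr (by rw [(f (star x)).central, h3, mul_zero])⟩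
  · push Not at h4
    exfalso
    have h5 : ∀ c, (f (star x)).fst c = 0 := fun c => by
      rw [← CStarRing.star_mul_self_eq_zero_iff, ← (f (star x)).central, h4, zero_mul]
    have h6 : f (star x) = 0 := by
      ext c
      · simpa using h5 c
      · simpa using h4 c
    have := hf (h6.trans (map_zero f).symm)
    exact hx (by simpa using this)

end Pool.Agent.Results.MP_e20a4f_an.Wor
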